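import Pool.Agent.Helper99.MKV.GoalsR

/-! Packet MKV FNA (helper76). -/

open MeasureTheory ProbabilityTheory Filter
open scoped ENNReal

namespace Pool.Agent.Helper76.MKV

open Pool.Agent.Helper99.MKV Pool.Agent.Helper99.EXC Pool.Agent.Helper99.ERW

lemma hitSet_zero {Ω : Type*} (X : ℕ → Ω → Site 2) (y : Site 2) (m : ℕ) :
    hitSet X 0 y m = {w | ∃ i, m ≤ i ∧ X i w = y} := by
  ext w
  simp only [hitSet, Set.mem_ofPred_eq]
  refine exists_congr fun i => and_congr_right fun _ => ?_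
  constructor
  · intro h
    have h1 : ∀ l, |(X i w - y) l| ≤ (0 : ℕ) := mem_box.mp h
    funext l
    have h2 := h1 l
    have h3 : (X i w - y) l = 0 := by
      have : |(X i w - y) l| ≤ 0 := by simpa using h2
      exact abs_nonpos_iff.mp this
    have h4 : X i w l - y l = 0 := h3
    linarith
  · intro h
    rw [h, sub_self]
    exact mem_box.mpr (fun l => by simp)

theorem FNA (hGDA : GDA_stmt) (hCND : CND_stmt) (hHGL : HGL_stmt) : FNA_stmt := by
  intro Ω _ P _ μ _ env X h hP hB hSE a B ha0 ha1 hB1 hG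
  obtain ⟨c0, hc0, hc1, hae⟩ := hGDA P hSE a B ha0 ha1 hB1 hG
  have hN : P {ω | ¬ ∀ (y : Site 2) (s0 : St), {z | s0.2 z ≠ 0}.Finite →
    ∃ N : ℕ, c0 ≤ Pool.Agent.Helper99.EXC.hp (pw (shift y ω)) N s0} = 0 := hae
  set N0 : Set (Env 2) := toMeasurable P {ω | ¬ ∀ (y : Site 2) (s0 : St),
    {z | s0.2 z ≠ 0}.Finite →
    ∃ N : ℕ, c0 ≤ Pool.Agent.Helper99.EXC.hp (pw (shift y ω)) N s0} with hN0
  have hN0m : MeasurableSet N0 := measurableSet_toMeasurable _ _
  have hN00 : P N0 = 0 := by rw [hN0, measure_toMeasurable, hN]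
  have hgood : ∀ ω, ω ∉ N0 → ∀ (y : Site 2) (s0 : St), {z | s0.2 z ≠ 0}.Finite →
      ∃ N : ℕ, c0 ≤ Pool.Agent.Helper99.EXC.hp (pw (shift y ω)) N s0 := by
    intro ω hω
    by_contra hcon
    exact hω (subset_toMeasurable P _ hcon)
  have henv : ∀ᵐ w ∂μ, env w ∉ N0 :=
    h.ae_env (p := fun ω => ω ∉ N0) (measure_eq_zero_iff_ae_notMem.mp hN00)
  have key : ∀ y : Site 2, ∀ᵐ w ∂μ, ∃ᶠ n in atTop, X n w = y := by
    intro y
    refine hCND Ω _ μ X h.measurable_walk y c0 hc0 fun m x => ?_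
    set Cy : Set Ω := cyl X x m with hCy
    set E : Set Ω := Cy ∩ {w | env w ∉ N0} with hE
    have hCym : MeasurableSet Cy := h.hist_le m _ (measurableSet_cyl_hist env X x m)
    have hEm : MeasurableSet[hist env X m] E :=
      (measurableSet_cyl_hist env X x m).inter (measurable_env_hist env X m hN0m.compl)
    have h1 := hHGL Ω _ P μ env X h hP hB y
      {ω | ∀ s0 : St, {z | s0.2 z ≠ 0}.Finite →
        ∃ N : ℕ, c0 ≤ Pool.Agent.Helper99.EXC.hp (pw ω) N s0} c0 hc0 hc1
      (fun ω hω => hω) m E hEm (fun w hw => hgood (env w) hw.2 y)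
    rw [hitSet_zero] at h1
    set H : Set Ω := {w | ∃ i, m ≤ i ∧ X i w = y} with hH
    have hHm : MeasurableSet H := by
      have : H = ⋃ i, ⋃ _ : m ≤ i, X i ⁻¹' {y} := by
        ext w
        simp [hH]
      rw [this]
      exact MeasurableSet.iUnion fun i => MeasurableSet.iUnion fun _ =>
        h.measurable_walk i (measurableSet_singleton y)
    have hEC : E =ᵐ[μ] Cy := by
      filter_upwards [henv] with w hw
      apply propext
      constructor
      · intro hh; exact hh.1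
      · intro hh; exact ⟨hh, hw⟩
    have h2 : μ.real (E \ H) = μ.real (Cy \ H) :=
      measureReal_congr (hEC.diff (ae_eq_refl H))
    have h3 : μ.real E = μ.real Cy := measureReal_congr hEC
    rw [h2, h3] at h1
    have h4 : μ.real (Cy ∩ H) + μ.real (Cy \ H) = μ.real Cy :=
      measureReal_inter_add_diff hHm
    have h5 : c0 * μ.real Cy ≤ μ.real (Cy ∩ H) := by linarith
    have h6 : μ Cy = ENNReal.ofReal (μ.real Cy) := by
      rw [measureReal_def, ENNReal.ofReal_toReal (measure_ne_top _ _)]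
    have h7 : μ (Cy ∩ H) = ENNReal.ofReal (μ.real (Cy ∩ H)) := by
      rw [measureReal_def, ENNReal.ofReal_toReal (measure_ne_top _ _)]
    rw [h6, h7, ← ENNReal.ofReal_mul hc0.le]
    exact ENNReal.ofReal_le_ofReal h5
  exact ae_all_iff.mpr key

end Pool.Agent.Helper76.MKV
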